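import Pool.Agent.W260.Theta.Stms

/-!
The colouring sum of a graph made of internally disjoint paths with common ends.
-/

set_option autoImplicit false

namespace Pool.Agent.W930.Theta

open Finset Pool.Agent.W260.Theta

/-- the colours along a path with `m` interior vertices -/
def seqe {ι : Type} (i : ι) (m : ℕ) (f : Fin m → ι) (j : ι) (t : ℕ) : ι :=
  if t = 0 then i else if h : t - 1 < m then f ⟨t - 1, h⟩ else j

/-- proper colouring of a path -/
def chain {ι : Type} (i : ι) (m : ℕ) (f : Fin m → ι) (j : ι) : Prop :=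
  ∀ t ≤ m, seqe i m f j t ≠ seqe i m f j (t + 1)

theorem chain_zero {ι : Type} (i : ι) (f : Fin 0 → ι) (j : ι) : chain i 0 f j ↔ i ≠ j := by
  unfold chain seqe
  constructor
  · intro h
    have := h 0 le_rfl
    simpa using this
  · intro h t ht
    obtain rfl : t = 0 := by omega
    simpa using h

theorem chain_snoc {ι : Type} (i : ι) (m : ℕ) (f : Fin m → ι) (k j : ι) :
    chain i (m + 1) (Fin.snoc f k : Fin (m + 1) → ι) j ↔ chain i m f k ∧ k ≠ j := by
  have e1 : ∀ t ≤ m + 1, seqe i (m + 1) (Fin.snoc f k : Fin (m + 1) → ι) j t = seqe i m f k t := by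
    intro t ht
    unfold seqe
    by_cases h0 : t = 0
    · rw [if_pos h0, if_pos h0]
    · rw [if_neg h0, if_neg h0, dif_pos (by omega)]
      by_cases h1 : t - 1 < m
      · rw [dif_pos h1]
        exact Fin.snoc_castSucc (α := fun _ => ι) k f ⟨t - 1, h1⟩
      · rw [dif_neg h1]
        have h2 : (⟨t - 1, by omega⟩ : Fin (m + 1)) = Fin.last m := by
          ext
          show t - 1 = m
          omega
        rw [h2, Fin.snoc_last]
  have e2 : seqe i (m + 1) (Fin.snoc f k : Fin (m + 1) → ι) j (m + 2) = j := by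
    unfold seqe
    rw [if_neg (by omega), dif_neg (by omega)]
  have e3 : seqe i m f k (m + 1) = k := by
    unfold seqe
    rw [if_neg (by omega), dif_neg (by omega)]
  constructor
  · intro h
    refine ⟨fun t ht => ?_, ?_⟩
    · have := h t (by omega)
      rwa [e1 t (by omega), e1 (t + 1) (by omega)] at this
    · have := h (m + 1) le_rfl
      rwa [e1 (m + 1) le_rfl, e2, e3] at this
  · rintro ⟨h1, h2⟩ t ht
    rcases Nat.lt_or_ge t (m + 1) with h3 | h3
    · rw [e1 t (by omega), e1 (t + 1) (by omega)]
      exact h1 t (by omega)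
    · obtain rfl : t = m + 1 := by omega
      rw [e1 (m + 1) le_rfl, e2, e3]
      exact h2

open Classical in
/-- the sum over the colourings of the interior of a path -/
theorem sum_chain {ι R : Type} [Fintype ι] [DecidableEq ι] [CommRing R] (x : ι → R) (i : ι) :
    ∀ (m : ℕ) (j : ι), ∑ f : Fin m → ι, (∏ t, x (f t)) * (if chain i m f j then (1 : R) else 0) =
      Qp x m i j := by
  intro m
  induction m with
  | zero =>
    intro j
    rw [Fintype.sum_unique]
    simp only [Finset.univ_eq_empty, Finset.prod_empty, one_mul, chain_zero, Qp]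
    by_cases h : i = j <;> simp [h]
  | succ m ih =>
    intro j
    rw [← (Fin.snocEquiv (fun _ : Fin (m + 1) => ι)).sum_comp, Fintype.sum_prod_type]
    show _ = ∑ k, Qp x m i k * x k * (if k = j then 0 else 1)
    refine Finset.sum_congr rfl fun k _ => ?_
    rw [← ih k, Finset.sum_mul, Finset.sum_mul]
    refine Finset.sum_congr rfl fun f _ => ?_
    have e : (Fin.snocEquiv (fun _ : Fin (m + 1) => ι)) (k, f) =
        (Fin.snoc f k : Fin (m + 1) → ι) := rfl
    rw [e, Fin.prod_univ_castSucc]
    simp only [Fin.snoc_castSucc, Fin.snoc_last, chain_snoc]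
    by_cases h1 : chain i m f k <;> by_cases h2 : k = j <;> simp [h1, h2]

theorem edge_getVert {V : Type} {G : SimpleGraph V} {u v : V} (w : G.Walk u v) (e : Sym2 V)
    (h : e ∈ w.edges) : ∃ t < w.length, e = s(w.getVert t, w.getVert (t + 1)) := by
  induction w with
  | nil => simp at h
  | cons hadj p ih =>
    rw [SimpleGraph.Walk.edges_cons, List.mem_cons] at h
    rcases h with rfl | h
    · exact ⟨0, by simp, by simp⟩
    · obtain ⟨t, ht, he⟩ := ih h
      refine ⟨t + 1, by simp; exact ht, ?_⟩
      rw [SimpleGraph.Walk.getVert_cons_succ, SimpleGraph.Walk.getVert_cons_succ]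
      exact he

section main
variable {V K : Type} [Fintype V] [Fintype K] {G : SimpleGraph V} {u v : V}
  (w : K → G.Walk u v)

/-- the ends and the interior vertices -/
def Fm : Fin 2 ⊕ (Σ s : K, Fin ((w s).length - 1)) → V
  | Sum.inl a => if a = 0 then u else v
  | Sum.inr ⟨s, t⟩ => (w s).getVert (t + 1)

variable (huv : u ≠ v) (hp : ∀ s, (w s).IsPath)
  (hd : ∀ s s', s ≠ s' → ∀ y, y ∈ (w s).support → y ∈ (w s').support → y = u ∨ y = v)
  (hc : ∀ y, ∃ s, y ∈ (w s).support)
  (he : ∀ y z, G.Adj y z → ∃ s, s(y, z) ∈ (w s).edges)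

omit [Fintype V] [Fintype K] in
include hp in
theorem int_ne (s : K) (t : Fin ((w s).length - 1)) :
    (w s).getVert (t + 1) ≠ u ∧ (w s).getVert (t + 1) ≠ v := by
  have := t.2
  constructor
  · rw [Ne, (hp s).getVert_eq_start_iff (by omega)]
    omega
  · rw [Ne, (hp s).getVert_eq_end_iff (by omega)]
    omega

include huv hp hd hc in
theorem Fm_bij : Function.Bijective (Fm w) := by
  constructor
  · have h2 : ∀ a b : Fin 2, (if a = 0 then u else v) = (if b = 0 then u else v) → a = b := by
      intro a b h
      fin_cases a <;> fin_cases b <;> simp_all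
    have hend : ∀ (a : Fin 2), (if a = 0 then u else v) = u ∨ (if a = 0 then u else v) = v := by
      intro a
      split_ifs <;> simp
    rintro (a | ⟨s, t⟩) (b | ⟨s', t'⟩) h
    · exact congrArg _ (h2 a b h)
    · exfalso
      have h3 := int_ne w hp s' t'
      have h4 : (if a = 0 then u else v) = (w s').getVert (t' + 1) := h
      rcases hend a with h5 | h5
      · exact h3.1 (h4.symm.trans h5)
      · exact h3.2 (h4.symm.trans h5)
    · exfalso
      have h3 := int_ne w hp s t
      have h4 : (w s).getVert (t + 1) = (if b = 0 then u else v) := h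
      rcases hend b with h5 | h5
      · exact h3.1 (h4.trans h5)
      · exact h3.2 (h4.trans h5)
    · have h4 : (w s).getVert (t + 1) = (w s').getVert (t' + 1) := h
      by_cases hs : s = s'
      · subst hs
        have h5 := (hp s).getVert_injOn (show (t : ℕ) + 1 ≤ (w s).length by have := t.2; omega)
          (show (t' : ℕ) + 1 ≤ (w s).length by have := t'.2; omega) h4
        have h6 : t = t' := Fin.ext (by omega)
        rw [h6]
      · exfalso
        have h3 := int_ne w hp s t
        rcases hd s s' hs _ ((w s).getVert_mem_support _) (h4 ▸ (w s').getVert_mem_support _)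
          with h5 | h5
        · exact h3.1 h5
        · exact h3.2 h5
  · intro y
    obtain ⟨s, hs⟩ := hc y
    obtain ⟨t, ht, ht2⟩ := SimpleGraph.Walk.mem_support_iff_exists_getVert.1 hs
    by_cases h0 : t = 0
    · subst h0
      refine ⟨Sum.inl 0, ?_⟩
      show (if (0 : Fin 2) = 0 then u else v) = y
      rw [if_pos rfl, ← ht, SimpleGraph.Walk.getVert_zero]
    · by_cases h1 : t = (w s).length
      · subst h1
        refine ⟨Sum.inl 1, ?_⟩
        show (if (1 : Fin 2) = 0 then u else v) = y
        rw [if_neg (by decide), ← ht, SimpleGraph.Walk.getVert_length]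
      · refine ⟨Sum.inr ⟨s, ⟨t - 1, by omega⟩⟩, ?_⟩
        show (w s).getVert (t - 1 + 1) = y
        rw [← ht, Nat.sub_add_cancel (by omega)]

/-- the restriction of a colouring to the ends and to the interiors of the paths -/
def Ph (ι : Type) (κ : V → ι) : (ι × ι) × (∀ s : K, Fin ((w s).length - 1) → ι) :=
  ((κ u, κ v), fun s t => κ ((w s).getVert (t + 1)))

include huv hp hd hc in
theorem Ph_bij (ι : Type) : Function.Bijective (Ph w ι) := by
  have hb := Fm_bij w huv hp hd hc
  constructor
  · intro κ κ' h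
    funext y
    obtain ⟨z, rfl⟩ := hb.2 y
    have h1 : κ u = κ' u := congrArg (fun z => z.1.1) h
    have h2 : κ v = κ' v := congrArg (fun z => z.1.2) h
    have h3 : (fun s (t : Fin ((w s).length - 1)) => κ ((w s).getVert (t + 1))) =
      fun s (t : Fin ((w s).length - 1)) => κ' ((w s).getVert (t + 1)) := congrArg (fun z => z.2) h
    rcases z with a | ⟨s, t⟩
    · show κ (if a = 0 then u else v) = κ' (if a = 0 then u else v)
      split_ifs
      · exact h1
      · exact h2
    · exact congrFun (congrFun h3 s) t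
  · rintro ⟨⟨i, j⟩, f⟩
    let E := Equiv.ofBijective _ hb
    let g : Fin 2 ⊕ (Σ s : K, Fin ((w s).length - 1)) → ι := fun z =>
      Sum.elim (fun a => if a = 0 then i else j) (fun st => f st.1 st.2) z
    have hg : ∀ z, g (E.symm (Fm w z)) = g z := by
      intro z
      have : E.symm (Fm w z) = z := E.symm_apply_apply z
      rw [this]
    refine ⟨fun y => g (E.symm y), ?_⟩
    unfold Ph
    have e1 : g (E.symm u) = i := by
      have := hg (Sum.inl 0)
      exact this
    have e2 : g (E.symm v) = j := by
      have := hg (Sum.inl 1)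
      exact this
    have e3 : (fun s (t : Fin ((w s).length - 1)) => g (E.symm ((w s).getVert (t + 1)))) = f := by
      funext s t
      exact hg (Sum.inr ⟨s, t⟩)
    show ((g (E.symm u), g (E.symm v)), fun s (t : Fin ((w s).length - 1)) =>
      g (E.symm ((w s).getVert (t + 1)))) = ((i, j), f)
    rw [e1, e2, e3]

omit [Fintype V] [Fintype K] in
include huv in
theorem len_pos (s : K) : 1 ≤ (w s).length := by
  by_contra h
  have h0 : (w s).length = 0 := by omega
  exact huv (SimpleGraph.Walk.eq_of_length_eq_zero h0)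

include huv in
/-- a colouring along a path -/
theorem seqe_path {ι : Type} (κ : V → ι) (s : K) (t : ℕ) (ht : t ≤ (w s).length) :
    seqe (κ u) ((w s).length - 1) (fun t => κ ((w s).getVert (t + 1))) (κ v) t =
      κ ((w s).getVert t) := by
  have hl := len_pos w huv s
  unfold seqe
  by_cases h0 : t = 0
  · subst h0
    rw [if_pos rfl, SimpleGraph.Walk.getVert_zero]
  · rw [if_neg h0]
    by_cases h1 : t - 1 < (w s).length - 1
    · rw [dif_pos h1]
      show κ ((w s).getVert (t - 1 + 1)) = _
      rw [Nat.sub_add_cancel (by omega)]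
    · rw [dif_neg h1]
      obtain rfl : t = (w s).length := by omega
      rw [SimpleGraph.Walk.getVert_length]

include huv he in
/-- proper colourings are proper along the paths -/
theorem proper_iff {ι : Type} (κ : V → ι) : (∀ y z, G.Adj y z → κ y ≠ κ z) ↔
    ∀ s, chain (κ u) ((w s).length - 1) (fun t => κ ((w s).getVert (t + 1))) (κ v) := by
  constructor
  · intro h s t ht
    have hl := len_pos w huv s
    rw [seqe_path w huv κ s t (by omega), seqe_path w huv κ s (t + 1) (by omega)]
    exact h _ _ ((w s).adj_getVert_succ (by omega))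
  · intro h y z hyz
    obtain ⟨s, hs⟩ := he y z hyz
    obtain ⟨t, ht, ht2⟩ := edge_getVert (w s) _ hs
    have h1 := h s t (by omega)
    rw [seqe_path w huv κ s t (by omega), seqe_path w huv κ s (t + 1) (by omega)] at h1
    rcases Sym2.eq_iff.1 ht2 with ⟨rfl, rfl⟩ | ⟨rfl, rfl⟩
    · exact h1
    · exact h1.symm

open Classical in
include huv hp hd hc he in
theorem sum_paths {ι R : Type} [Fintype ι] [DecidableEq ι] [CommRing R] (x : ι → R)
    (S : Finset (V → ι)) (hS : ∀ κ, κ ∈ S ↔ ∀ y z, G.Adj y z → κ y ≠ κ z) :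
    ∑ κ ∈ S, ∏ y, x (κ y) = ∑ i, ∑ j, x i * x j * ∏ s, Qp x ((w s).length - 1) i j := by
  have hb := Fm_bij w huv hp hd hc
  have h1 : ∑ κ ∈ S, ∏ y, x (κ y) = ∑ κ : V → ι,
      (fun z : (ι × ι) × (∀ s : K, Fin ((w s).length - 1) → ι) => x z.1.1 * x z.1.2 *
        ∏ s, ((∏ t, x (z.2 s t)) * (if chain z.1.1 ((w s).length - 1) (z.2 s) z.1.2 then (1 : R)
          else 0))) (Ph w ι κ) := by
    have hSf : S = univ.filter fun κ : V → ι => ∀ y z, G.Adj y z → κ y ≠ κ z := by
      ext κ
      simp [hS]
    rw [hSf, Finset.sum_filter]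
    refine Finset.sum_congr rfl fun κ _ => ?_
    have h2 : ∏ y, x (κ y) = x (κ u) * x (κ v) * ∏ s, ∏ t : Fin ((w s).length - 1),
        x (κ ((w s).getVert (t + 1))) := by
      rw [← (Equiv.ofBijective _ hb).prod_comp, Fintype.prod_sum_type, Fin.prod_univ_two,
        Fintype.prod_sigma]
      rfl
    show (if ∀ y z, G.Adj y z → κ y ≠ κ z then ∏ y, x (κ y) else 0) = x (κ u) * x (κ v) *
      ∏ s, ((∏ t : Fin ((w s).length - 1), x (κ ((w s).getVert (t + 1)))) *
        (if chain (κ u) ((w s).length - 1) (fun t => κ ((w s).getVert (t + 1))) (κ v) then (1 : R)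
          else 0))
    rw [Finset.prod_mul_distrib, ← mul_assoc, ← h2]
    by_cases h3 : ∀ y z, G.Adj y z → κ y ≠ κ z
    · rw [if_pos h3]
      have h4 := (proper_iff w huv he κ).1 h3
      have h5 : (∏ s, (if chain (κ u) ((w s).length - 1)
          (fun t => κ ((w s).getVert (t + 1))) (κ v) then (1 : R) else 0)) = 1 :=
        Finset.prod_eq_one fun s _ => if_pos (h4 s)
      rw [h5, mul_one]
    · rw [if_neg h3]
      have h4 : ¬ ∀ s, chain (κ u) ((w s).length - 1) (fun t => κ ((w s).getVert (t + 1))) (κ v) :=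
        fun h => h3 ((proper_iff w huv he κ).2 h)
      obtain ⟨s, hs⟩ := not_forall.1 h4
      rw [Finset.prod_eq_zero (i := s) (Finset.mem_univ s) (if_neg hs), mul_zero]
  refine h1.trans ((Function.Bijective.sum_comp (Ph_bij w huv hp hd hc ι)
    (fun z : (ι × ι) × (∀ s : K, Fin ((w s).length - 1) → ι) => x z.1.1 * x z.1.2 *
        ∏ s, ((∏ t, x (z.2 s t)) * (if chain z.1.1 ((w s).length - 1) (z.2 s) z.1.2 then (1 : R)
          else 0)))).trans ?_)
  rw [Fintype.sum_prod_type, Fintype.sum_prod_type]
  refine Finset.sum_congr rfl fun i _ => Finset.sum_congr rfl fun j _ => ?_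
  show (∑ f : (∀ s : K, Fin ((w s).length - 1) → ι), x i * x j * ∏ s, ((∏ t, x (f s t)) *
    (if chain i ((w s).length - 1) (f s) j then (1 : R) else 0))) = _
  rw [← Finset.mul_sum]
  congr 1
  have h6 : ∀ s, Qp x ((w s).length - 1) i j = ∑ f ∈ (univ : Finset (Fin ((w s).length - 1) → ι)),
      (∏ t, x (f t)) * (if chain i ((w s).length - 1) f j then (1 : R) else 0) := fun s =>
    (sum_chain x i _ j).symm
  simp only [h6]
  rw [Finset.prod_univ_sum, Fintype.piFinset_univ]

include huv hp hd hc in
theorem card_paths : Fintype.card V = 2 + ∑ s, ((w s).length - 1) := by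
  have hb := Fm_bij w huv hp hd hc
  rw [← Fintype.card_congr (Equiv.ofBijective _ hb), Fintype.card_sum, Fintype.card_fin,
    Fintype.card_sigma]
  simp

end main

theorem part_G : S_G := by
  intro V ι R _ _ _ _ x G u v p q r huv hp hq hr hpq hpr hqr hc he S hS
  let w : Fin 3 → G.Walk u v := ![p, q, r]
  have hw : ∀ s, (w s).IsPath := by
    intro s
    fin_cases s
    · exact hp
    · exact hq
    · exact hr
  have hd : ∀ s s', s ≠ s' → ∀ y, y ∈ (w s).support → y ∈ (w s').support → y = u ∨ y = v := by
    intro s s' hs y h1 h2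
    fin_cases s <;> fin_cases s'
    · exact absurd rfl hs
    · exact hpq y h1 h2
    · exact hpr y h1 h2
    · exact hpq y h2 h1
    · exact absurd rfl hs
    · exact hqr y h1 h2
    · exact hpr y h2 h1
    · exact hqr y h2 h1
    · exact absurd rfl hs
  have hc' : ∀ y, ∃ s, y ∈ (w s).support := by
    intro y
    rcases hc y with h | h | h
    · exact ⟨0, h⟩
    · exact ⟨1, h⟩
    · exact ⟨2, h⟩
  have he' : ∀ y z, G.Adj y z → ∃ s, s(y, z) ∈ (w s).edges := by
    intro y z hyz
    rcases he y z hyz with h | h | h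
    · exact ⟨0, h⟩
    · exact ⟨1, h⟩
    · exact ⟨2, h⟩
  constructor
  · rw [sum_paths w huv hw hd hc' he' x S hS]
    unfold theta
    refine Finset.sum_congr rfl fun i _ => Finset.sum_congr rfl fun j _ => ?_
    rw [Fin.prod_univ_three]
    show x i * x j * (Qp x (p.length - 1) i j * Qp x (q.length - 1) i j *
      Qp x (r.length - 1) i j) = _
    ring
  · have h1 := card_paths w huv hw hd hc'
    rw [Fin.sum_univ_three] at h1
    have h2 : 1 ≤ p.length := len_pos w huv 0
    have h3 : 1 ≤ q.length := len_pos w huv 1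
    have h4 : 1 ≤ r.length := len_pos w huv 2
    have h5 : Fintype.card V = 2 + ((p.length - 1) + (q.length - 1) + (r.length - 1)) := h1
    omega

end Pool.Agent.W930.Theta
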